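import Mathlib

/-!
Definitions for the decomposition of planar graphs of girth five into a forest and a star forest.
-/

namespace Pool.Agent.StarForest

/-- A star forest: an acyclic graph each of whose connected components has a vertex (its centre)
which is an endpoint of every edge of the component. -/
def IsStarForest {V : Type*} (S : SimpleGraph V) : Prop :=
  S.IsAcyclic ∧ ∀ c : S.ConnectedComponent, ∃ x ∈ c.supp,
    ∀ u v : V, S.Adj u v → u ∈ c.supp → (u = x ∨ v = x)

/-- `p` is a drawing of `G` in the plane without crossings in which every edge is a straight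
segment: distinct vertices are distinct points, an edge contains no vertex other than its two
endpoints, and two distinct edges meet at most in a common endpoint. -/
def IsStraightPlaneDrawing {V : Type*} (G : SimpleGraph V) (p : V → ℝ × ℝ) : Prop :=
  Function.Injective p ∧
  (∀ u v w : V, G.Adj u v → p w ∈ segment ℝ (p u) (p v) → w = u ∨ w = v) ∧
  ∀ u v x y : V, G.Adj u v → G.Adj x y → s(u, v) ≠ s(x, y) →
    ∀ z ∈ segment ℝ (p u) (p v), z ∈ segment ℝ (p x) (p y) →
      ∃ w, z = p w ∧ (w = u ∨ w = v) ∧ (w = x ∨ w = y)

end Pool.Agent.StarForest
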