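import Mathlib
import Pool.Agent.Lib_helper98.StarForest.Defs

namespace Pool.Agent.StarForest

open SimpleGraph

variable {V : Type*}

/-- A forest on `n` vertices has at most `n - 1` edges. -/
lemma acyclic_card {W : Type*} [Fintype W] [Nonempty W] (K : SimpleGraph W) (h : K.IsAcyclic) :
    Nat.card K.edgeSet + 1 ≤ Fintype.card W := by
  classical
  obtain ⟨T, hKT, -, hT⟩ := (connected_top (V := W)).exists_isTree_le_of_le_of_isAcyclic le_top h
  rw [← hT.card_edgeFinset, add_le_add_iff_right, Nat.card_eq_fintype_card, ← edgeFinset_card]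
  exact Finset.card_mono (by simpa using hKT)

/-- In a forest two vertices which are joined in two edge-disjoint subgraphs are equal. -/
lemma eq_of_reachable {F G₁ G₂ : SimpleGraph V} (hF : F.IsAcyclic) (h₁ : G₁ ≤ F) (h₂ : G₂ ≤ F)
    (hd : ∀ a b, G₁.Adj a b → ¬ G₂.Adj a b) {u v : V} (r₁ : G₁.Reachable u v)
    (r₂ : G₂.Reachable u v) : u = v := by
  classical
  obtain ⟨p₁, hp₁⟩ := r₁.exists_isPath
  obtain ⟨p₂, hp₂⟩ := r₂.exists_isPath
  have e := (hF.subsingleton_path u v).elim ⟨p₁.mapLe h₁, hp₁.mapLe h₁⟩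
    ⟨p₂.mapLe h₂, hp₂.mapLe h₂⟩
  have e' : p₁.mapLe h₁ = p₂.mapLe h₂ := congrArg Subtype.val e
  have ee : p₁.edges = p₂.edges := by
    have := congrArg Walk.edges e'
    simpa using this
  cases p₁ with
  | nil => rfl
  | cons hadj q =>
    exfalso
    rename_i w'
    have m₁ : s(u, w') ∈ (Walk.cons hadj q).edges := by simp
    rw [ee] at m₁
    exact hd _ _ hadj (p₂.adj_of_mem_edges m₁)

/-- Counting pairwise edge-disjoint connections in a forest. -/
lemma card_connections {W ι : Type*} [Fintype W] [Nonempty W] [Fintype ι] {F : SimpleGraph V}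
    (hF : F.IsAcyclic) (e : W → V) (he : Function.Injective e) (f : ι → SimpleGraph V)
    (hf : ∀ i, f i ≤ F) (hd : ∀ i j, i ≠ j → ∀ a b, (f i).Adj a b → ¬ (f j).Adj a b)
    (a b : ι → W) (hab : ∀ i, a i ≠ b i) (hr : ∀ i, (f i).Reachable (e (a i)) (e (b i))) :
    Fintype.card ι + 1 ≤ Fintype.card W := by
  classical
  let K : SimpleGraph W := SimpleGraph.fromEdgeSet (Set.range fun i => s(a i, b i))
  have hinj : Function.Injective fun i => s(a i, b i) := by
    intro i j hij
    by_contra hne
    have h1 := hr i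
    have h2 := hr j
    have : (f j).Reachable (e (a i)) (e (b i)) := by
      rcases Sym2.eq_iff.1 hij with ⟨h, h'⟩ | ⟨h, h'⟩
      · rw [h, h']; exact h2
      · rw [h, h']; exact h2.symm
    exact hab i (he (eq_of_reachable hF (hf i) (hf j) (hd i j hne) h1 this))
  have hK : K.IsAcyclic := by
    rw [isAcyclic_iff_forall_adj_isBridge]
    intro x y hxy
    rw [isBridge_iff]
    intro hreach
    obtain ⟨⟨i, hi⟩, hne⟩ := (fromEdgeSet_adj _).1 hxy
    -- the graph formed by the other connections
    let g : SimpleGraph V := ⨆ j : {j // j ≠ i}, f j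
    have hg : g ≤ F := iSup_le fun j => hf j
    have key : ∀ u v, (K \ fromEdgeSet {s(x, y)}).Reachable u v → g.Reachable (e u) (e v) := by
      intro u v huv
      obtain ⟨w⟩ := huv
      induction w with
      | nil => exact Reachable.refl _
      | cons hadj _ ih =>
        refine Reachable.trans ?_ ih
        rename_i u v w
        rw [sdiff_adj, fromEdgeSet_adj, fromEdgeSet_adj] at hadj
        obtain ⟨⟨⟨j, hj⟩, huv⟩, hnot⟩ := hadj
        have hji : j ≠ i := by
          rintro rfl
          apply hnot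
          refine ⟨?_, huv⟩
          simp only [Set.mem_singleton_iff]
          rw [← hi, ← hj]
        have hle : f j ≤ g := le_iSup (fun j : {j // j ≠ i} => f j) ⟨j, hji⟩
        have := (hr j).mono hle
        rcases Sym2.eq_iff.1 hj with ⟨h, h'⟩ | ⟨h, h'⟩
        · rw [← h, ← h']; exact this
        · rw [← h, ← h']; exact this.symm
    have r2 := key _ _ hreach
    have r1 : (f i).Reachable (e x) (e y) := by
      have := hr i
      rcases Sym2.eq_iff.1 hi with ⟨h, h'⟩ | ⟨h, h'⟩
      · rw [← h, ← h']; exact this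
      · rw [← h, ← h']; exact this.symm
    have := eq_of_reachable hF (hf i) hg (by
      intro c d hcd hgcd
      rw [iSup_adj] at hgcd
      obtain ⟨j, hj⟩ := hgcd
      exact hd i j (Ne.symm j.2) c d hcd hj) r1 r2
    exact hne (he this)
  have h1 := acyclic_card K hK
  have h2 : Fintype.card ι ≤ Nat.card K.edgeSet := by
    rw [← Nat.card_eq_fintype_card]
    refine Nat.card_le_card_of_injective (fun i => ⟨s(a i, b i), ?_⟩) ?_
    · rw [edgeSet_fromEdgeSet]
      refine ⟨⟨i, rfl⟩, ?_⟩
      simpa using hab i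
    · intro i j hij
      exact hinj (congrArg Subtype.val hij)
  omega

/-- A star forest contains no path with three edges. -/
lemma IsStarForest.no_path {S : SimpleGraph V} (hS : IsStarForest S) {a b c d : V}
    (h₁ : S.Adj a b) (h₂ : S.Adj b c) (h₃ : S.Adj c d) (hac : a ≠ c) (hbd : b ≠ d) : False := by
  obtain ⟨x, -, hx⟩ := hS.2 (S.connectedComponentMk b)
  have hb : b ∈ (S.connectedComponentMk b).supp := rfl
  have ha : a ∈ (S.connectedComponentMk b).supp :=
    ConnectedComponent.sound h₁.reachable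
  have hc : c ∈ (S.connectedComponentMk b).supp :=
    ConnectedComponent.sound h₂.reachable.symm
  have e1 := hx _ _ h₁ ha
  have e2 := hx _ _ h₂ hb
  have e3 := hx _ _ h₃ hc
  have n1 := h₁.ne
  have n2 := h₂.ne
  have n3 := h₃.ne
  rcases e2 with rfl | rfl
  · rcases e3 with h | h
    · exact n2 h.symm
    · exact hbd h.symm
  · rcases e1 with h | h
    · exact hac h
    · exact n2 h

/-- In a star forest every edge has an endpoint of degree one. -/
lemma IsStarForest.leaf {S : SimpleGraph V} (hS : IsStarForest S) {u v : V} (h : S.Adj u v) :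
    (∀ w, S.Adj u w → w = v) ∨ (∀ w, S.Adj v w → w = u) := by
  by_contra hcon
  push Not at hcon
  obtain ⟨⟨w, hw, hwv⟩, ⟨z, hz, hzu⟩⟩ := hcon
  exact hS.no_path hw.symm h hz hwv hzu.symm

/-- A forest contains no cycle of length five. -/
lemma no_cycle5 {F : SimpleGraph V} (hF : F.IsAcyclic) {a b c d e : V} (h₁ : F.Adj a b)
    (h₂ : F.Adj b c) (h₃ : F.Adj c d) (h₄ : F.Adj d e) (h₅ : F.Adj e a) (hac : a ≠ c)
    (had : a ≠ d) (hbd : b ≠ d) (hbe : b ≠ e) (hce : c ≠ e) : False := by
  refine hF (Walk.cons h₁ (Walk.cons h₂ (Walk.cons h₃ (Walk.cons h₄ (Walk.cons h₅ Walk.nil))))) ?_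
  have n1 := h₁.ne
  have n2 := h₂.ne
  have n3 := h₃.ne
  have n4 := h₄.ne
  have n5 := h₅.ne
  rw [Walk.cons_isCycle_iff]
  constructor
  · simp only [Walk.cons_isPath_iff, Walk.support_cons, Walk.support_nil]
    simp
    tauto
  · simp
    tauto

end Pool.Agent.StarForest
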