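import Mathlib
import Pool.Agent.Lib_helper98.StarForest.Forest

/-!
The graph: the dodecahedron with ten gadgets, and the proof that it is not the union of a forest
and a star forest.

The dodecahedron has the vertices `0, …, 19`: four rings `a = 0 .. 4`, `b = 5 .. 9`, `c = 10 .. 14`,
`d = 15 .. 19`.  The gadget `k` is attached at the two vertices `X k`, `Y k` and has eight further
vertices `(k, 0), …, (k, 7)`.
-/

namespace Pool.Agent.StarForest

open SimpleGraph

/-- The vertices. -/
abbrev Vt : Type := Fin 20 ⊕ Fin 10 × Fin 8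

def X : Fin 10 → Fin 20 := ![0, 1, 2, 3, 4, 15, 16, 17, 18, 19]

def Y : Fin 10 → Fin 20 := ![10, 11, 12, 13, 14, 6, 7, 8, 9, 5]

/-- The edges of the dodecahedron. -/
def bE : Fin 30 → Fin 20 × Fin 20 :=
  ![(0, 1), (1, 2), (2, 3), (3, 4), (4, 0),
    (0, 5), (1, 6), (2, 7), (3, 8), (4, 9),
    (5, 10), (6, 11), (7, 12), (8, 13), (9, 14),
    (6, 10), (7, 11), (8, 12), (9, 13), (5, 14),
    (10, 15), (11, 16), (12, 17), (13, 18), (14, 19),
    (15, 16), (16, 17), (17, 18), (18, 19), (19, 15)]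

/-- The edges of the gadget `k`. -/
def gE (k : Fin 10) : List (Vt × Vt) :=
  [(.inr (k, 0), .inr (k, 1)), (.inr (k, 1), .inr (k, 2)), (.inr (k, 2), .inr (k, 3)),
   (.inr (k, 3), .inr (k, 4)), (.inr (k, 4), .inr (k, 5)), (.inr (k, 2), .inr (k, 6)),
   (.inr (k, 3), .inr (k, 7)), (.inl (Y k), .inr (k, 0)), (.inl (Y k), .inr (k, 5)),
   (.inl (Y k), .inr (k, 6)), (.inl (Y k), .inr (k, 7)), (.inl (X k), .inr (k, 1)),
   (.inl (X k), .inr (k, 4))]

/-- All edges. -/
def E : List (Vt × Vt) :=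
  (List.finRange 30).map (fun t => (.inl (bE t).1, .inl (bE t).2)) ++
    (List.finRange 10).flatMap gE

lemma mem_E {e : Vt × Vt} :
    e ∈ E ↔ (∃ t, e = (.inl (bE t).1, .inl (bE t).2)) ∨ ∃ k, e ∈ gE k := by
  simp [E, eq_comm]

lemma bE_ne : ∀ t, (bE t).1 ≠ (bE t).2 := by decide

lemma bE_inj : ∀ t t', s((bE t).1, (bE t).2) = s((bE t').1, (bE t').2) → t = t' := by
  decide +kernel

lemma E_ne {e : Vt × Vt} (h : e ∈ E) : e.1 ≠ e.2 := by
  rw [mem_E] at h
  rcases h with ⟨t, rfl⟩ | ⟨k, h⟩
  · simpa using bE_ne t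
  · simp only [gE, List.mem_cons, List.not_mem_nil, or_false] at h
    rcases h with rfl | rfl | rfl | rfl | rfl | rfl | rfl | rfl | rfl | rfl | rfl | rfl | rfl <;>
      simp

/-- The graph. -/
def G : SimpleGraph Vt where
  Adj u v := (u, v) ∈ E ∨ (v, u) ∈ E
  symm := ⟨fun _ _ h => h.symm⟩
  loopless := ⟨fun u h => by
    have h' : (u, u) ∈ E := by tauto
    exact E_ne h' rfl⟩

lemma adj_of_gE {k : Fin 10} {u v : Vt} (h : (u, v) ∈ gE k) : G.Adj u v :=
  Or.inl (mem_E.2 (Or.inr ⟨k, h⟩))

lemma adj_base (t : Fin 30) : G.Adj (.inl (bE t).1) (.inl (bE t).2) :=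
  Or.inl (mem_E.2 (Or.inl ⟨t, rfl⟩))

/-- `u` is one of the eight new vertices of the gadget `k`. -/
def Inn (k : Fin 10) : Vt → Prop
  | .inl _ => False
  | .inr (k', _) => k' = k

lemma inn_of_adj {u v : Vt} {k k' : Fin 10} (h : G.Adj u v) (hu : Inn k u) (hv : Inn k' v) :
    k = k' := by
  rcases u with u | ⟨ku, ju⟩
  · exact hu.elim
  rcases v with v | ⟨kv, jv⟩
  · exact hv.elim
  simp only [Inn] at hu hv
  subst hu hv
  rcases h with h | h <;> rw [mem_E] at h <;> rcases h with ⟨t, h⟩ | ⟨l, h⟩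
  · simp at h
  · simp only [gE, List.mem_cons, List.not_mem_nil, or_false, Prod.mk.injEq, reduceCtorEq,
      false_and, Sum.inr.injEq] at h
    rcases h with h | h | h | h | h | h | h <;> rw [h.1.1, h.2.1]
  · simp at h
  · simp only [gE, List.mem_cons, List.not_mem_nil, or_false, Prod.mk.injEq, reduceCtorEq,
      false_and, Sum.inr.injEq] at h
    rcases h with h | h | h | h | h | h | h <;> rw [h.1.1, h.2.1]

/-- The part of a graph `F` in the gadget `k`. -/
def part (F : SimpleGraph Vt) (k : Fin 10) : SimpleGraph Vt where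
  Adj u v := F.Adj u v ∧ (Inn k u ∨ Inn k v)
  symm := ⟨fun _ _ h => ⟨h.1.symm, h.2.symm⟩⟩
  loopless := ⟨fun _ h => h.1.ne rfl⟩

lemma part_le (F : SimpleGraph Vt) (k : Fin 10) : part F k ≤ F := fun _ _ h => h.1

lemma part_disjoint {F : SimpleGraph Vt} (hF : F ≤ G) {k l : Fin 10} (hkl : k ≠ l) (u v : Vt)
    (h : (part F k).Adj u v) : ¬ (part F l).Adj u v := by
  intro h'
  have hG := hF h.1
  rcases h.2 with h1 | h1 <;> rcases h'.2 with h2 | h2
  · rcases u with u | ⟨ku, ju⟩
    · exact h1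
    · exact hkl (by simp only [Inn] at h1 h2; rw [← h1, ← h2])
  · exact hkl (inn_of_adj hG h1 h2)
  · exact hkl (inn_of_adj hG.symm h1 h2)
  · rcases v with v | ⟨kv, jv⟩
    · exact h1
    · exact hkl (by simp only [Inn] at h1 h2; rw [← h1, ← h2])

/-- The gadget lemma. -/
lemma gadget {F S : SimpleGraph Vt} (hF : F.IsAcyclic) (hS : IsStarForest S) (hG : G ≤ F ⊔ S)
    (k : Fin 10) (hX : ∀ w, ¬ S.Adj (.inl (X k)) (.inr w)) (hY : ∀ w, ¬ S.Adj (.inl (Y k)) (.inr w)) :
    (part F k).Reachable (.inl (X k)) (.inl (Y k)) := by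
  by_contra hM
  have ax : ∀ {u v : Vt}, (u, v) ∈ gE k → F.Adj u v ∨ S.Adj u v := fun h => hG (adj_of_gE h)
  -- abbreviations
  have x1 : F.Adj (.inl (X k)) (.inr (k, 1)) := (ax (by simp [gE])).resolve_right (hX _)
  have x4 : F.Adj (.inl (X k)) (.inr (k, 4)) := (ax (by simp [gE])).resolve_right (hX _)
  have y0 : F.Adj (.inl (Y k)) (.inr (k, 0)) := (ax (by simp [gE])).resolve_right (hY _)
  have y5 : F.Adj (.inl (Y k)) (.inr (k, 5)) := (ax (by simp [gE])).resolve_right (hY _)
  have y6 : F.Adj (.inl (Y k)) (.inr (k, 6)) := (ax (by simp [gE])).resolve_right (hY _)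
  have y7 : F.Adj (.inl (Y k)) (.inr (k, 7)) := (ax (by simp [gE])).resolve_right (hY _)
  have e01 : F.Adj (.inr (k, 0)) (.inr (k, 1)) ∨ S.Adj (.inr (k, 0)) (.inr (k, 1)) :=
    ax (by simp [gE])
  have e12 : F.Adj (.inr (k, 1)) (.inr (k, 2)) ∨ S.Adj (.inr (k, 1)) (.inr (k, 2)) :=
    ax (by simp [gE])
  have e23 : F.Adj (.inr (k, 2)) (.inr (k, 3)) ∨ S.Adj (.inr (k, 2)) (.inr (k, 3)) :=
    ax (by simp [gE])
  have e34 : F.Adj (.inr (k, 3)) (.inr (k, 4)) ∨ S.Adj (.inr (k, 3)) (.inr (k, 4)) :=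
    ax (by simp [gE])
  have e45 : F.Adj (.inr (k, 4)) (.inr (k, 5)) ∨ S.Adj (.inr (k, 4)) (.inr (k, 5)) :=
    ax (by simp [gE])
  have e26 : F.Adj (.inr (k, 2)) (.inr (k, 6)) ∨ S.Adj (.inr (k, 2)) (.inr (k, 6)) :=
    ax (by simp [gE])
  have e37 : F.Adj (.inr (k, 3)) (.inr (k, 7)) ∨ S.Adj (.inr (k, 3)) (.inr (k, 7)) :=
    ax (by simp [gE])
  -- reachability in the part
  have rl : ∀ {u : Fin 20} {j : Fin 8}, F.Adj (.inl u) (.inr (k, j)) →
      (part F k).Reachable (.inl u) (.inr (k, j)) :=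
    fun h => Adj.reachable (G := part F k) ⟨h, Or.inr rfl⟩
  have ri : ∀ {i j : Fin 8}, F.Adj (.inr (k, i)) (.inr (k, j)) →
      (part F k).Reachable (.inr (k, i)) (.inr (k, j)) :=
    fun h => Adj.reachable (G := part F k) ⟨h, Or.inr rfl⟩
  have s01 : S.Adj (.inr (k, 0)) (.inr (k, 1)) := by
    rcases e01 with h | h
    · exact (hM ((rl x1).trans ((ri h).symm.trans (rl y0).symm))).elim
    · exact h
  have s45 : S.Adj (.inr (k, 4)) (.inr (k, 5)) := by
    rcases e45 with h | h
    · exact (hM ((rl x4).trans ((ri h).trans (rl y5).symm))).elim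
    · exact h
  rcases e12 with f12 | s12
  · -- `12 ∈ F`
    have s26 : S.Adj (.inr (k, 2)) (.inr (k, 6)) := by
      rcases e26 with h | h
      · exact (hM ((rl x1).trans ((ri f12).trans ((ri h).trans (rl y6).symm)))).elim
      · exact h
    rcases e34 with f34 | s34
    · have s37 : S.Adj (.inr (k, 3)) (.inr (k, 7)) := by
        rcases e37 with h | h
        · exact (hM ((rl x4).trans ((ri f34).symm.trans ((ri h).trans (rl y7).symm)))).elim
        · exact h
      rcases e23 with f23 | s23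
      · exact no_cycle5 hF x1 f12 f23 f34 x4.symm (by simp) (by simp) (by simp) (by simp) (by simp)
      · exact hS.no_path s26.symm s23 s37 (by simp) (by simp)
    · have f37 : F.Adj (.inr (k, 3)) (.inr (k, 7)) := by
        rcases e37 with h | h
        · exact h
        · exact (hS.no_path s45.symm s34.symm h (by simp) (by simp)).elim
      have f23 : F.Adj (.inr (k, 2)) (.inr (k, 3)) := by
        rcases e23 with h | h
        · exact h
        · exact (hS.no_path s45.symm s34.symm h.symm (by simp) (by simp)).elim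
      exact hM ((rl x1).trans ((ri f12).trans ((ri f23).trans ((ri f37).trans (rl y7).symm))))
  · -- `12 ∈ S`
    have f26 : F.Adj (.inr (k, 2)) (.inr (k, 6)) := by
      rcases e26 with h | h
      · exact h
      · exact (hS.no_path s01 s12 h (by simp) (by simp)).elim
    have f23 : F.Adj (.inr (k, 2)) (.inr (k, 3)) := by
      rcases e23 with h | h
      · exact h
      · exact (hS.no_path s01 s12 h (by simp) (by simp)).elim
    have s37 : S.Adj (.inr (k, 3)) (.inr (k, 7)) := by
      rcases e37 with h | h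
      · exact (no_cycle5 hF y6 f26.symm f23 h y7.symm (by simp) (by simp) (by simp) (by simp)
          (by simp)).elim
      · exact h
    have s34 : S.Adj (.inr (k, 3)) (.inr (k, 4)) := by
      rcases e34 with h | h
      · exact (hM ((rl x4).trans ((ri h).symm.trans ((ri f23).symm.trans
          ((ri f26).trans (rl y6).symm))))).elim
      · exact h
    exact hS.no_path s37.symm s34 s45 (by simp) (by simp)

lemma XY_inj : Function.Injective (Sum.elim X Y) := by decide +kernel

lemma XY_ne : ∀ k, X k ≠ Y k := by decide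

/-- The graph is not the union of a forest and a star forest. -/
theorem not_union : ¬ ∃ F S : SimpleGraph Vt, F.IsAcyclic ∧ IsStarForest S ∧ F ⊔ S = G := by
  classical
  rintro ⟨F, S, hF, hS, hFS⟩
  have hFG : F ≤ G := hFS ▸ le_sup_left
  have hGe : G ≤ F ⊔ S := hFS.ge
  -- base edges in `F`, base edges in `S`, connecting gadgets, attached vertices
  let TF := {t : Fin 30 // F.Adj (.inl (bE t).1) (.inl (bE t).2)}
  let TS := {t : Fin 30 // S.Adj (.inl (bE t).1) (.inl (bE t).2)}
  let M := {k : Fin 10 // (part F k).Reachable (.inl (X k)) (.inl (Y k))}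
  let A := {v : Fin 20 // ∃ w, S.Adj (.inl v) (.inr w)}
  have h1 : Fintype.card (TF ⊕ M) + 1 ≤ Fintype.card (Fin 20) := by
    refine card_connections hF (Sum.inl : Fin 20 → Vt) Sum.inl_injective
      (Sum.elim (fun t : TF => fromEdgeSet {s(.inl (bE t.1).1, .inl (bE t.1).2)})
        (fun k : M => part F k.1)) ?_ ?_
      (Sum.elim (fun t : TF => (bE t.1).1) (fun k : M => X k.1))
      (Sum.elim (fun t : TF => (bE t.1).2) (fun k : M => Y k.1)) ?_ ?_
    · rintro (t | k)
      · intro u v huv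
        rw [Sum.elim_inl, fromEdgeSet_adj, Set.mem_singleton_iff] at huv
        rcases Sym2.eq_iff.1 huv.1 with ⟨h, h'⟩ | ⟨h, h'⟩
        · rw [h, h']; exact t.2
        · rw [h, h']; exact t.2.symm
      · exact part_le F k.1
    · rintro (t | k) (t' | k') hne u v huv huv'
      · rw [Sum.elim_inl, fromEdgeSet_adj, Set.mem_singleton_iff] at huv huv'
        have := huv.1.symm.trans huv'.1
        apply hne
        congr 1
        apply Subtype.ext
        apply bE_inj
        rcases Sym2.eq_iff.1 this with ⟨h, h'⟩ | ⟨h, h'⟩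
        · rw [Sum.inl.inj h, Sum.inl.inj h']
        · rw [Sum.inl.inj h, Sum.inl.inj h', Sym2.eq_swap]
      · rw [Sum.elim_inl, fromEdgeSet_adj, Set.mem_singleton_iff] at huv
        have h2 := huv'.2
        rcases Sym2.eq_iff.1 huv.1 with ⟨h, h'⟩ | ⟨h, h'⟩ <;> rw [h, h'] at h2 <;>
          rcases h2 with h2 | h2 <;> exact h2
      · rw [Sum.elim_inl, fromEdgeSet_adj, Set.mem_singleton_iff] at huv'
        have h2 := huv.2
        rcases Sym2.eq_iff.1 huv'.1 with ⟨h, h'⟩ | ⟨h, h'⟩ <;> rw [h, h'] at h2 <;>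
          rcases h2 with h2 | h2 <;> exact h2
      · refine part_disjoint hFG ?_ u v huv huv'
        rintro h
        exact hne (by rw [Subtype.ext h])
    · rintro (t | k)
      · exact bE_ne t.1
      · exact XY_ne k.1
    · rintro (t | k)
      · apply Adj.reachable
        rw [Sum.elim_inl, fromEdgeSet_adj]
        refine ⟨rfl, ?_⟩
        simpa using bE_ne t.1
      · exact k.2
  have h2 : Fintype.card TS + Fintype.card A ≤ Fintype.card (Fin 20) := by
    rw [← Fintype.card_sum]
    refine Fintype.card_le_of_injective (Sum.elim (fun t : TS =>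
      if ∀ w, S.Adj (.inl (bE t.1).1) w → w = .inl (bE t.1).2 then (bE t.1).1 else (bE t.1).2)
      (fun v : A => v.1)) ?_
    -- the chosen endpoint is a leaf
    have leaf : ∀ t : TS, ∃ y : Fin 20, s((if ∀ w, S.Adj (.inl (bE t.1).1) w → w = .inl (bE t.1).2
        then (bE t.1).1 else (bE t.1).2), y) = s((bE t.1).1, (bE t.1).2) ∧
        ∀ w, S.Adj (.inl (if ∀ w, S.Adj (.inl (bE t.1).1) w → w = .inl (bE t.1).2
        then (bE t.1).1 else (bE t.1).2)) w → w = .inl y := by
      intro t
      by_cases hc : ∀ w, S.Adj (.inl (bE t.1).1) w → w = .inl (bE t.1).2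
      · rw [if_pos hc]
        exact ⟨_, rfl, hc⟩
      · rw [if_neg hc]
        exact ⟨_, Sym2.eq_swap, (hS.leaf t.2).resolve_left hc⟩
    have adjl : ∀ (t : TS) (y : Fin 20), s((if ∀ w, S.Adj (.inl (bE t.1).1) w → w = .inl (bE t.1).2
        then (bE t.1).1 else (bE t.1).2), y) = s((bE t.1).1, (bE t.1).2) →
        S.Adj (.inl (if ∀ w, S.Adj (.inl (bE t.1).1) w → w = .inl (bE t.1).2
        then (bE t.1).1 else (bE t.1).2)) (.inl y) := by
      intro t y hy
      rcases Sym2.eq_iff.1 hy with ⟨h, h'⟩ | ⟨h, h'⟩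
      · rw [h, h']; exact t.2
      · rw [h, h']; exact t.2.symm
    rintro (t | v) (t' | v') heq
    · simp only [Sum.elim_inl] at heq
      obtain ⟨y, hy, hyl⟩ := leaf t
      obtain ⟨y', hy', hyl'⟩ := leaf t'
      have ha := adjl t' y' hy'
      rw [← heq] at ha
      have e1 := hyl _ ha
      have e2 : y' = y := by simpa using e1
      rw [← heq, e2] at hy'
      congr 1
      apply Subtype.ext
      apply bE_inj
      rw [← hy, ← hy']
    · simp only [Sum.elim_inl, Sum.elim_inr] at heq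
      obtain ⟨y, hy, hyl⟩ := leaf t
      obtain ⟨w, hw⟩ := v'.2
      rw [← heq] at hw
      exact absurd (hyl _ hw) (by simp)
    · simp only [Sum.elim_inl, Sum.elim_inr] at heq
      obtain ⟨y, hy, hyl⟩ := leaf t'
      obtain ⟨w, hw⟩ := v.2
      rw [heq] at hw
      exact absurd (hyl _ hw) (by simp)
    · simp only [Sum.elim_inr] at heq
      rw [Subtype.ext heq]
  have h3 : Fintype.card (Fin 30) ≤ Fintype.card (TF ⊕ TS) := by
    refine Fintype.card_le_of_injective (fun t =>
      if h : F.Adj (.inl (bE t).1) (.inl (bE t).2) then .inl ⟨t, h⟩ else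
        .inr ⟨t, (hGe (adj_base t)).resolve_left h⟩) ?_
    intro t t' h
    simp only at h
    split_ifs at h
    · exact congrArg Subtype.val (Sum.inl.inj h)
    · exact congrArg Subtype.val (Sum.inr.inj h)
  have h4 : Fintype.card (Fin 10) ≤ Fintype.card (M ⊕ A) := by
    have hg : ∀ k : Fin 10, ¬ (part F k).Reachable (.inl (X k)) (.inl (Y k)) →
        (∃ w, S.Adj (.inl (X k)) (.inr w)) ∨ (∃ w, S.Adj (.inl (Y k)) (.inr w)) := by
      intro k hk
      by_contra hcon
      push Not at hcon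
      exact hk (gadget hF hS hGe k hcon.1 hcon.2)
    refine Fintype.card_le_of_injective (fun k =>
      if h : (part F k).Reachable (.inl (X k)) (.inl (Y k)) then (.inl ⟨k, h⟩ : M ⊕ A) else
        if h' : ∃ w, S.Adj (.inl (X k)) (.inr w) then .inr ⟨X k, h'⟩ else
          .inr ⟨Y k, (hg k h).resolve_left h'⟩) ?_
    intro k k' h
    have iXX : X k = X k' → k = k' := fun e => by
      have := @XY_inj (.inl k) (.inl k') e
      simpa using this
    have iYY : Y k = Y k' → k = k' := fun e => by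
      have := @XY_inj (.inr k) (.inr k') e
      simpa using this
    have iXY : ∀ i j, X i ≠ Y j := fun i j e => by
      have := @XY_inj (.inl i) (.inr j) e
      simp at this
    simp only at h
    split_ifs at h
    · exact congrArg Subtype.val (Sum.inl.inj h)
    · exact iXX (congrArg Subtype.val (Sum.inr.inj h))
    · exact absurd (congrArg Subtype.val (Sum.inr.inj h)) (iXY k k')
    · exact absurd (congrArg Subtype.val (Sum.inr.inj h)).symm (iXY k' k)
    · exact iYY (congrArg Subtype.val (Sum.inr.inj h))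
  rw [Fintype.card_sum] at h1 h3 h4
  rw [Fintype.card_fin] at h1 h2 h3 h4
  omega

end Pool.Agent.StarForest
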