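import Mathlib
import Pool.Agent.Lib_helper98.StarForest.Graph

/-!
The graph has no cycle of length three or four, and it has a plane drawing with straight edges.
-/

namespace Pool.Agent.StarForest

open SimpleGraph

/-- The number of a vertex. -/
def code : Vt → ℕ
  | .inl v => v.val
  | .inr (k, j) => 20 + 8 * k.val + j.val

lemma code_lt (v : Vt) : code v < 100 := by
  rcases v with v | ⟨k, j⟩
  · have := v.isLt
    simp only [code]; omega
  · have := k.isLt
    have := j.isLt
    simp only [code]; omega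

lemma code_inj : Function.Injective code := by
  rintro (u | ⟨k, j⟩) (v | ⟨l, i⟩) h
  · simp only [code] at h
    rw [Fin.ext h]
  · simp only [code] at h
    have := u.isLt
    omega
  · simp only [code] at h
    have := v.isLt
    omega
  · simp only [code] at h
    have := j.isLt
    have := i.isLt
    have h1 : k = l := Fin.ext (by omega)
    have h2 : j = i := Fin.ext (by omega)
    rw [h1, h2]

/-- The neighbours, by number. -/
def nbT : List (List ℕ) :=
  [[1, 4, 5, 21, 24], [0, 2, 6, 29, 32], [1, 3, 7, 37, 40], [2, 4, 8, 45, 48], [3, 0, 9, 53, 56],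
   [0, 10, 14, 92, 97, 98, 99], [1, 11, 10, 60, 65, 66, 67], [2, 12, 11, 68, 73, 74, 75], [3, 13, 12, 76, 81, 82, 83], [4, 14, 13, 84, 89, 90, 91],
   [5, 6, 15, 20, 25, 26, 27], [6, 7, 16, 28, 33, 34, 35], [7, 8, 17, 36, 41, 42, 43], [8, 9, 18, 44, 49, 50, 51], [9, 5, 19, 52, 57, 58, 59],
   [10, 16, 19, 61, 64], [11, 15, 17, 69, 72], [12, 16, 18, 77, 80], [13, 17, 19, 85, 88], [14, 18, 15, 93, 96],
   [21, 10], [20, 22, 0], [21, 23, 26], [22, 24, 27], [23, 25, 0],
   [24, 10], [22, 10], [23, 10], [29, 11], [28, 30, 1],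
   [29, 31, 34], [30, 32, 35], [31, 33, 1], [32, 11], [30, 11],
   [31, 11], [37, 12], [36, 38, 2], [37, 39, 42], [38, 40, 43],
   [39, 41, 2], [40, 12], [38, 12], [39, 12], [45, 13],
   [44, 46, 3], [45, 47, 50], [46, 48, 51], [47, 49, 3], [48, 13],
   [46, 13], [47, 13], [53, 14], [52, 54, 4], [53, 55, 58],
   [54, 56, 59], [55, 57, 4], [56, 14], [54, 14], [55, 14],
   [61, 6], [60, 62, 15], [61, 63, 66], [62, 64, 67], [63, 65, 15],
   [64, 6], [62, 6], [63, 6], [69, 7], [68, 70, 16],
   [69, 71, 74], [70, 72, 75], [71, 73, 16], [72, 7], [70, 7],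
   [71, 7], [77, 8], [76, 78, 17], [77, 79, 82], [78, 80, 83],
   [79, 81, 17], [80, 8], [78, 8], [79, 8], [85, 9],
   [84, 86, 18], [85, 87, 90], [86, 88, 91], [87, 89, 18], [88, 9],
   [86, 9], [87, 9], [93, 5], [92, 94, 19], [93, 95, 98],
   [94, 96, 99], [95, 97, 19], [96, 5], [94, 5], [95, 5]]

/-- The positions of the vertices. -/
def P : List (ℕ × ℕ) :=
  [(543, 285), (336, 570), (0, 461), (0, 109), (336, 0), (452, 300), (294, 489),
   (65, 396), (82, 150), (322, 90), (364, 373), (197, 428), (93, 285), (197, 142),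
   (364, 197), (308, 322), (227, 358), (168, 293), (212, 216), (299, 235), (414, 338),
   (485, 303), (470, 317), (473, 323), (494, 320), (422, 356), (426, 340), (428, 345),
   (245, 464), (301, 521), (282, 511), (278, 516), (287, 534), (231, 477), (247, 476),
   (244, 479), (74, 343), (37, 413), (40, 392), (34, 389), (19, 404), (56, 333),
   (63, 348), (58, 346), (136, 142), (58, 129), (78, 125), (79, 119), (61, 109),
   (139, 122), (128, 133), (128, 128), (346, 139), (334, 60), (344, 79), (350, 78),
   (354, 57), (366, 136), (352, 128), (357, 127), (290, 438), (295, 372), (300, 389),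
   (305, 389), (312, 373), (306, 440), (297, 430), (301, 431), (112, 377), (177, 362),
   (162, 371), (163, 376), (181, 378), (116, 393), (121, 381), (122, 385), (115, 189),
   (150, 246), (136, 234), (132, 237), (135, 254), (101, 197), (114, 199), (111, 201),
   (295, 134), (252, 184), (258, 168), (254, 164), (239, 173), (283, 123), (285, 136),
   (282, 133), (403, 288), (342, 262), (359, 263), (361, 258), (348, 247), (410, 273),
   (398, 279), (399, 275)]

/-- The edges, by number and position. -/
def L : List (ℕ × ℕ × (ℕ × ℕ) × (ℕ × ℕ)) :=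
  [(0, 1, (543, 285), (336, 570)), (1, 2, (336, 570), (0, 461)), (2, 3, (0, 461), (0, 109)),
   (3, 4, (0, 109), (336, 0)), (4, 0, (336, 0), (543, 285)), (0, 5, (543, 285), (452, 300)),
   (1, 6, (336, 570), (294, 489)), (2, 7, (0, 461), (65, 396)), (3, 8, (0, 109), (82, 150)),
   (4, 9, (336, 0), (322, 90)), (5, 10, (452, 300), (364, 373)), (6, 11, (294, 489), (197, 428)),
   (7, 12, (65, 396), (93, 285)), (8, 13, (82, 150), (197, 142)), (9, 14, (322, 90), (364, 197)),
   (6, 10, (294, 489), (364, 373)), (7, 11, (65, 396), (197, 428)), (8, 12, (82, 150), (93, 285)),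
   (9, 13, (322, 90), (197, 142)), (5, 14, (452, 300), (364, 197)), (10, 15, (364, 373), (308, 322)),
   (11, 16, (197, 428), (227, 358)), (12, 17, (93, 285), (168, 293)), (13, 18, (197, 142), (212, 216)),
   (14, 19, (364, 197), (299, 235)), (15, 16, (308, 322), (227, 358)), (16, 17, (227, 358), (168, 293)),
   (17, 18, (168, 293), (212, 216)), (18, 19, (212, 216), (299, 235)), (19, 15, (299, 235), (308, 322)),
   (20, 21, (414, 338), (485, 303)), (21, 22, (485, 303), (470, 317)), (22, 23, (470, 317), (473, 323)),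
   (23, 24, (473, 323), (494, 320)), (24, 25, (494, 320), (422, 356)), (22, 26, (470, 317), (426, 340)),
   (23, 27, (473, 323), (428, 345)), (10, 20, (364, 373), (414, 338)), (10, 25, (364, 373), (422, 356)),
   (10, 26, (364, 373), (426, 340)), (10, 27, (364, 373), (428, 345)), (0, 21, (543, 285), (485, 303)),
   (0, 24, (543, 285), (494, 320)), (28, 29, (245, 464), (301, 521)), (29, 30, (301, 521), (282, 511)),
   (30, 31, (282, 511), (278, 516)), (31, 32, (278, 516), (287, 534)), (32, 33, (287, 534), (231, 477)),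
   (30, 34, (282, 511), (247, 476)), (31, 35, (278, 516), (244, 479)), (11, 28, (197, 428), (245, 464)),
   (11, 33, (197, 428), (231, 477)), (11, 34, (197, 428), (247, 476)), (11, 35, (197, 428), (244, 479)),
   (1, 29, (336, 570), (301, 521)), (1, 32, (336, 570), (287, 534)), (36, 37, (74, 343), (37, 413)),
   (37, 38, (37, 413), (40, 392)), (38, 39, (40, 392), (34, 389)), (39, 40, (34, 389), (19, 404)),
   (40, 41, (19, 404), (56, 333)), (38, 42, (40, 392), (63, 348)), (39, 43, (34, 389), (58, 346)),
   (12, 36, (93, 285), (74, 343)), (12, 41, (93, 285), (56, 333)), (12, 42, (93, 285), (63, 348)),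
   (12, 43, (93, 285), (58, 346)), (2, 37, (0, 461), (37, 413)), (2, 40, (0, 461), (19, 404)),
   (44, 45, (136, 142), (58, 129)), (45, 46, (58, 129), (78, 125)), (46, 47, (78, 125), (79, 119)),
   (47, 48, (79, 119), (61, 109)), (48, 49, (61, 109), (139, 122)), (46, 50, (78, 125), (128, 133)),
   (47, 51, (79, 119), (128, 128)), (13, 44, (197, 142), (136, 142)), (13, 49, (197, 142), (139, 122)),
   (13, 50, (197, 142), (128, 133)), (13, 51, (197, 142), (128, 128)), (3, 45, (0, 109), (58, 129)),
   (3, 48, (0, 109), (61, 109)), (52, 53, (346, 139), (334, 60)), (53, 54, (334, 60), (344, 79)),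
   (54, 55, (344, 79), (350, 78)), (55, 56, (350, 78), (354, 57)), (56, 57, (354, 57), (366, 136)),
   (54, 58, (344, 79), (352, 128)), (55, 59, (350, 78), (357, 127)), (14, 52, (364, 197), (346, 139)),
   (14, 57, (364, 197), (366, 136)), (14, 58, (364, 197), (352, 128)), (14, 59, (364, 197), (357, 127)),
   (4, 53, (336, 0), (334, 60)), (4, 56, (336, 0), (354, 57)), (60, 61, (290, 438), (295, 372)),
   (61, 62, (295, 372), (300, 389)), (62, 63, (300, 389), (305, 389)), (63, 64, (305, 389), (312, 373)),
   (64, 65, (312, 373), (306, 440)), (62, 66, (300, 389), (297, 430)), (63, 67, (305, 389), (301, 431)),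
   (6, 60, (294, 489), (290, 438)), (6, 65, (294, 489), (306, 440)), (6, 66, (294, 489), (297, 430)),
   (6, 67, (294, 489), (301, 431)), (15, 61, (308, 322), (295, 372)), (15, 64, (308, 322), (312, 373)),
   (68, 69, (112, 377), (177, 362)), (69, 70, (177, 362), (162, 371)), (70, 71, (162, 371), (163, 376)),
   (71, 72, (163, 376), (181, 378)), (72, 73, (181, 378), (116, 393)), (70, 74, (162, 371), (121, 381)),
   (71, 75, (163, 376), (122, 385)), (7, 68, (65, 396), (112, 377)), (7, 73, (65, 396), (116, 393)),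
   (7, 74, (65, 396), (121, 381)), (7, 75, (65, 396), (122, 385)), (16, 69, (227, 358), (177, 362)),
   (16, 72, (227, 358), (181, 378)), (76, 77, (115, 189), (150, 246)), (77, 78, (150, 246), (136, 234)),
   (78, 79, (136, 234), (132, 237)), (79, 80, (132, 237), (135, 254)), (80, 81, (135, 254), (101, 197)),
   (78, 82, (136, 234), (114, 199)), (79, 83, (132, 237), (111, 201)), (8, 76, (82, 150), (115, 189)),
   (8, 81, (82, 150), (101, 197)), (8, 82, (82, 150), (114, 199)), (8, 83, (82, 150), (111, 201)),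
   (17, 77, (168, 293), (150, 246)), (17, 80, (168, 293), (135, 254)), (84, 85, (295, 134), (252, 184)),
   (85, 86, (252, 184), (258, 168)), (86, 87, (258, 168), (254, 164)), (87, 88, (254, 164), (239, 173)),
   (88, 89, (239, 173), (283, 123)), (86, 90, (258, 168), (285, 136)), (87, 91, (254, 164), (282, 133)),
   (9, 84, (322, 90), (295, 134)), (9, 89, (322, 90), (283, 123)), (9, 90, (322, 90), (285, 136)),
   (9, 91, (322, 90), (282, 133)), (18, 85, (212, 216), (252, 184)), (18, 88, (212, 216), (239, 173)),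
   (92, 93, (403, 288), (342, 262)), (93, 94, (342, 262), (359, 263)), (94, 95, (359, 263), (361, 258)),
   (95, 96, (361, 258), (348, 247)), (96, 97, (348, 247), (410, 273)), (94, 98, (359, 263), (398, 279)),
   (95, 99, (361, 258), (399, 275)), (5, 92, (452, 300), (403, 288)), (5, 97, (452, 300), (410, 273)),
   (5, 98, (452, 300), (398, 279)), (5, 99, (452, 300), (399, 275)), (19, 93, (299, 235), (342, 262)),
   (19, 96, (299, 235), (348, 247))]

/-- The neighbours of the vertex with number `a`. -/
def T (a : ℕ) : List ℕ := nbT.getD a []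

lemma mem_T : ∀ e ∈ E, code e.2 ∈ T (code e.1) ∧ code e.1 ∈ T (code e.2) := by
  decide +kernel

lemma T_of_adj {u v : Vt} (h : G.Adj u v) : code v ∈ T (code u) := by
  rcases h with h | h
  · exact (mem_T _ h).1
  · exact (mem_T _ h).2

lemma noTri : ∀ a ∈ List.range 100, ∀ b ∈ T a, ∀ c ∈ T b, c ∉ T a := by
  decide +kernel

lemma noC4 : ∀ a ∈ List.range 100, ∀ b ∈ T a, ∀ d ∈ T a, b ≠ d → ∀ c ∈ T b, c ≠ a → c ∉ T d := by
  decide +kernel

/-- The graph has girth at least five. -/
theorem five_le_egirth : 5 ≤ G.egirth := by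
  rw [le_egirth]
  intro a w hw
  have h3 := hw.three_le_length
  by_contra hlt
  have hlt' : w.length < 5 := by
    have := not_le.1 hlt
    exact_mod_cast this
  cases w with
  | nil => simp at h3
  | cons h1 w1 =>
  rename_i b
  cases w1 with
  | nil => simp at h3
  | cons h2 w2 =>
  rename_i c
  cases w2 with
  | nil => simp at h3
  | cons h4 w3 =>
  rename_i d
  cases w3 with
  | nil =>
    exact noTri (code a) (List.mem_range.2 (code_lt a)) _ (T_of_adj h1) _ (T_of_adj h2)
      (T_of_adj h4.symm)
  | cons h5 w4 =>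
  rename_i e
  cases w4 with
  | nil =>
    have hn := hw.support_nodup
    simp only [Walk.support_cons, Walk.support_nil, List.tail_cons, List.nodup_cons,
      List.mem_cons, List.not_mem_nil, or_false, not_or] at hn
    refine noC4 (code a) (List.mem_range.2 (code_lt a)) _ (T_of_adj h1) _ (T_of_adj h5.symm) ?_ _
      (T_of_adj h2) ?_ (T_of_adj h4.symm)
    · exact fun h => hn.1.2.1 (code_inj h)
    · exact fun h => hn.2.1.2 (code_inj h)
  | cons h6 w5 => simp at hlt'; omega


/-- The position of a vertex, in whole numbers. -/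
def pos (v : Vt) : ℕ × ℕ := P.getD (code v) (0, 0)

lemma L_eq : L = E.map fun e => (code e.1, code e.2, pos e.1, pos e.2) := by
  decide +kernel

def lft (a b c : ℕ × ℕ) : ℕ := a.1 * b.2 + b.1 * c.2 + c.1 * a.2

def rgt (a b c : ℕ × ℕ) : ℕ := a.1 * c.2 + b.1 * a.2 + c.1 * b.2

/-- `c` and `d` are strictly on one side of the line through `a` and `b`. -/
def side (a b c d : ℕ × ℕ) : Bool :=
  (Nat.blt (rgt a b c) (lft a b c) && Nat.blt (rgt a b d) (lft a b d)) ||
  (Nat.blt (lft a b c) (rgt a b c) && Nat.blt (lft a b d) (rgt a b d))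

/-- `a`, `b`, `c` are not on a line. -/
def tri (a b c : ℕ × ℕ) : Bool := !(Nat.beq (rgt a b c) (lft a b c))

/-- The check for two edges. -/
def ok (e f : ℕ × ℕ × (ℕ × ℕ) × (ℕ × ℕ)) : Bool :=
  match Nat.beq e.1 f.1, Nat.beq e.1 f.2.1, Nat.beq e.2.1 f.1, Nat.beq e.2.1 f.2.1 with
  | true, _, _, true => true
  | true, _, _, false => tri e.2.2.1 e.2.2.2 f.2.2.2
  | false, true, _, _ => tri e.2.2.1 e.2.2.2 f.2.2.1
  | false, false, true, _ => tri e.2.2.2 e.2.2.1 f.2.2.2
  | false, false, false, true => tri e.2.2.2 e.2.2.1 f.2.2.1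
  | false, false, false, false =>
    side e.2.2.1 e.2.2.2 f.2.2.1 f.2.2.2 || side f.2.2.1 f.2.2.2 e.2.2.1 e.2.2.2

lemma L_ok : (L.all fun e => L.all fun f => ok e f) = true := by
  decide +kernel

end Pool.Agent.StarForest
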