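import Mathlib
import Pool.Agent.Lib_helper98.StarForest.Draw

/-!
The drawing is plane.
-/

namespace Pool.Agent.StarForest

open SimpleGraph

/-- The signed double area of the triangle `a b z`. -/
def ar (a b z : ℝ × ℝ) : ℝ := (b.1 - a.1) * (z.2 - a.2) - (b.2 - a.2) * (z.1 - a.1)

lemma ar_combo (a b c d : ℝ × ℝ) (s t : ℝ) (h : s + t = 1) :
    ar a b (s • c + t • d) = s * ar a b c + t * ar a b d := by
  simp only [ar, Prod.smul_fst, Prod.smul_snd, Prod.fst_add, Prod.snd_add, smul_eq_mul]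
  have : t = 1 - s := by linarith
  subst this
  ring

lemma ar_self_left (a b : ℝ × ℝ) : ar a b a = 0 := by simp [ar]

lemma ar_self_right (a b : ℝ × ℝ) : ar a b b = 0 := by simp only [ar]; ring

lemma ar_seg {a b z : ℝ × ℝ} (h : z ∈ segment ℝ a b) : ar a b z = 0 := by
  obtain ⟨s, t, hs, ht, hst, rfl⟩ := h
  rw [ar_combo _ _ _ _ _ _ hst, ar_self_left, ar_self_right]
  ring

lemma disj_pos {a b c d z : ℝ × ℝ} (h : z ∈ segment ℝ a b) (h' : z ∈ segment ℝ c d)
    (hc : 0 < ar a b c) (hd : 0 < ar a b d) : False := by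
  have h0 := ar_seg h
  obtain ⟨s, t, hs, ht, hst, rfl⟩ := h'
  rw [ar_combo _ _ _ _ _ _ hst] at h0
  rcases hs.lt_or_eq with h1 | h1
  · nlinarith [mul_pos h1 hc, mul_nonneg ht hd.le]
  · have : t = 1 := by linarith
    subst this
    rw [← h1] at h0
    linarith

lemma disj_neg {a b c d z : ℝ × ℝ} (h : z ∈ segment ℝ a b) (h' : z ∈ segment ℝ c d)
    (hc : ar a b c < 0) (hd : ar a b d < 0) : False := by
  have h0 := ar_seg h
  obtain ⟨s, t, hs, ht, hst, rfl⟩ := h'
  rw [ar_combo _ _ _ _ _ _ hst] at h0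
  rcases hs.lt_or_eq with h1 | h1
  · nlinarith [mul_pos h1 (neg_pos.2 hc), mul_nonneg ht (neg_pos.2 hd).le]
  · have : t = 1 := by linarith
    subst this
    rw [← h1] at h0
    linarith

lemma common {a b c z : ℝ × ℝ} (h : z ∈ segment ℝ a b) (h' : z ∈ segment ℝ a c)
    (hc : ar a b c ≠ 0) : z = a := by
  have h0 := ar_seg h
  obtain ⟨s, t, hs, ht, hst, rfl⟩ := h'
  rw [ar_combo _ _ _ _ _ _ hst, ar_self_left] at h0
  have h1 : t * ar a b c = 0 := by linarith
  rcases mul_eq_zero.1 h1 with h2 | h2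
  · subst h2
    have : s = 1 := by linarith
    subst this
    simp
  · exact absurd h2 hc

/-- A point with natural coordinates as a point of the plane. -/
def pt (a : ℕ × ℕ) : ℝ × ℝ := ((a.1 : ℝ), (a.2 : ℝ))

lemma pt_inj : Function.Injective pt := by
  intro a b h
  simp only [pt, Prod.mk.injEq, Nat.cast_inj] at h
  exact Prod.ext h.1 h.2

lemma ar_pt (a b c : ℕ × ℕ) : ar (pt a) (pt b) (pt c) = (lft a b c : ℝ) - (rgt a b c : ℝ) := by
  simp only [ar, pt, lft, rgt]
  push_cast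
  ring

lemma tri_ne {a b c : ℕ × ℕ} (h : tri a b c = true) : ar (pt a) (pt b) (pt c) ≠ 0 := by
  rw [ar_pt, sub_ne_zero]
  intro he
  have he' : lft a b c = rgt a b c := by exact_mod_cast he
  simp [tri, he'] at h

lemma side_disj {a b c d : ℕ × ℕ} {z : ℝ × ℝ} (h : side a b c d = true)
    (h1 : z ∈ segment ℝ (pt a) (pt b)) (h2 : z ∈ segment ℝ (pt c) (pt d)) : False := by
  rw [side, Bool.or_eq_true, Bool.and_eq_true, Bool.and_eq_true] at h
  have key : ∀ m n : ℕ, Nat.blt m n = true → (m : ℝ) < n := by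
    intro m n hmn
    have : m < n := by simpa [Nat.blt_eq] using hmn
    exact_mod_cast this
  rcases h with ⟨ha, hb⟩ | ⟨ha, hb⟩
  · refine disj_pos h1 h2 ?_ ?_ <;> rw [ar_pt]
    · linarith [key _ _ ha]
    · linarith [key _ _ hb]
  · refine disj_neg h1 h2 ?_ ?_ <;> rw [ar_pt]
    · linarith [key _ _ ha]
    · linarith [key _ _ hb]

/-- The position of a vertex in the plane. -/
def pl (v : Vt) : ℝ × ℝ := pt (pos v)

lemma P_nodup : P.Nodup := by decide +kernel

lemma P_length : P.length = 100 := by decide +kernel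

lemma pos_inj : Function.Injective pos := by
  intro u v h
  have hu : code u < P.length := by rw [P_length]; exact code_lt u
  have hv : code v < P.length := by rw [P_length]; exact code_lt v
  rw [pos, pos, List.getD_eq_getElem _ _ hu, List.getD_eq_getElem _ _ hv] at h
  exact code_inj ((P_nodup.getElem_inj_iff).1 h)

lemma pl_inj : Function.Injective pl := pt_inj.comp pos_inj

lemma ok_edges {e f : Vt × Vt} (he : e ∈ E) (hf : f ∈ E) :
    ok (code e.1, code e.2, pos e.1, pos e.2) (code f.1, code f.2, pos f.1, pos f.2) = true := by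
  have h := L_ok
  rw [List.all_eq_true] at h
  have h1 := h (code e.1, code e.2, pos e.1, pos e.2)
    (by rw [L_eq]; exact List.mem_map.2 ⟨e, he, rfl⟩)
  rw [List.all_eq_true] at h1
  exact h1 _ (by rw [L_eq]; exact List.mem_map.2 ⟨f, hf, rfl⟩)

lemma edges_meet {e f : Vt × Vt} (he : e ∈ E) (hf : f ∈ E) (hne : s(e.1, e.2) ≠ s(f.1, f.2))
    {z : ℝ × ℝ} (h1 : z ∈ segment ℝ (pl e.1) (pl e.2)) (h2 : z ∈ segment ℝ (pl f.1) (pl f.2)) :
    ∃ w, z = pl w ∧ (w = e.1 ∨ w = e.2) ∧ (w = f.1 ∨ w = f.2) := by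
  have h := ok_edges he hf
  obtain ⟨a, b⟩ := e
  obtain ⟨c, d⟩ := f
  simp only at h h1 h2 hne ⊢
  have key : ∀ {u v : Vt}, Nat.beq (code u) (code v) = true → u = v := fun h =>
    code_inj (Nat.eq_of_beq_eq_true h)
  rw [ok] at h
  simp only at h
  split at h
  · rename_i q1 q2
    exact absurd (by rw [key q1, key q2]) hne
  · rename_i q1 q2
    have := key q1
    subst this
    exact ⟨a, common h1 h2 (tri_ne h), Or.inl rfl, Or.inl rfl⟩
  · rename_i q0 q1
    have := key q1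
    subst this
    rw [segment_symm] at h2
    exact ⟨a, common h1 h2 (tri_ne h), Or.inl rfl, Or.inr rfl⟩
  · rename_i q0 q1 q2
    have := key q2
    subst this
    rw [segment_symm] at h1
    exact ⟨b, common h1 h2 (tri_ne h), Or.inr rfl, Or.inl rfl⟩
  · rename_i q0 q1 q2 q3
    have := key q3
    subst this
    rw [segment_symm] at h1 h2
    exact ⟨b, common h1 h2 (tri_ne h), Or.inr rfl, Or.inr rfl⟩
  · rw [Bool.or_eq_true] at h
    rcases h with h | h
    · exact (side_disj h h1 h2).elim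
    · exact (side_disj h h2 h1).elim

lemma exists_edge {u v : Vt} (h : G.Adj u v) :
    ∃ e ∈ E, s(e.1, e.2) = s(u, v) ∧ segment ℝ (pl u) (pl v) = segment ℝ (pl e.1) (pl e.2) ∧
      ∀ w, (w = e.1 ∨ w = e.2) → (w = u ∨ w = v) := by
  rcases h with h | h
  · exact ⟨_, h, rfl, rfl, fun _ h => h⟩
  · exact ⟨_, h, Sym2.eq_swap, segment_symm _ _ _, fun _ h => h.symm⟩

lemma bE_surj : ∀ v : Fin 20, ∃ t, (bE t).1 = v ∨ (bE t).2 = v := by decide +kernel

lemma exists_adj (v : Vt) : ∃ x, G.Adj v x := by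
  rcases v with v | ⟨k, j⟩
  · obtain ⟨t, h | h⟩ := bE_surj v
    · exact ⟨.inl (bE t).2, by rw [← h]; exact adj_base t⟩
    · exact ⟨.inl (bE t).1, by rw [← h]; exact (adj_base t).symm⟩
  · fin_cases j
    · exact ⟨.inr (k, 1), adj_of_gE (k := k) (by simp [gE])⟩
    · exact ⟨.inr (k, 2), adj_of_gE (k := k) (by simp [gE])⟩
    · exact ⟨.inr (k, 3), adj_of_gE (k := k) (by simp [gE])⟩
    · exact ⟨.inr (k, 4), adj_of_gE (k := k) (by simp [gE])⟩
    · exact ⟨.inr (k, 5), adj_of_gE (k := k) (by simp [gE])⟩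
    · exact ⟨.inl (Y k), (adj_of_gE (k := k) (by simp [gE])).symm⟩
    · exact ⟨.inl (Y k), (adj_of_gE (k := k) (by simp [gE])).symm⟩
    · exact ⟨.inl (Y k), (adj_of_gE (k := k) (by simp [gE])).symm⟩

/-- The graph has a plane drawing with straight edges. -/
theorem drawing : IsStraightPlaneDrawing G pl := by
  have main : ∀ u v x y : Vt, G.Adj u v → G.Adj x y → s(u, v) ≠ s(x, y) →
      ∀ z ∈ segment ℝ (pl u) (pl v), z ∈ segment ℝ (pl x) (pl y) →
        ∃ w, z = pl w ∧ (w = u ∨ w = v) ∧ (w = x ∨ w = y) := by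
    intro u v x y huv hxy hne z hz hz'
    obtain ⟨e, he, hes, heg, hew⟩ := exists_edge huv
    obtain ⟨f, hf, hfs, hfg, hfw⟩ := exists_edge hxy
    rw [← hes, ← hfs] at hne
    rw [heg] at hz
    rw [hfg] at hz'
    obtain ⟨w, hw, h1, h2⟩ := edges_meet he hf hne hz hz'
    exact ⟨w, hw, hew w h1, hfw w h2⟩
  refine ⟨pl_inj, ?_, main⟩
  intro u v w huv hw
  obtain ⟨x, hx⟩ := exists_adj w
  by_cases hs : s(u, v) = s(w, x)
  · rcases Sym2.eq_iff.1 hs with ⟨h, -⟩ | ⟨-, h⟩
    · exact Or.inl h.symm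
    · exact Or.inr h.symm
  · obtain ⟨w', hw', h1, -⟩ := main u v w x huv hx hs (pl w) hw (left_mem_segment ℝ _ _)
    rw [pl_inj hw']
    exact h1

end Pool.Agent.StarForest
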